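import Pool.Agent.H16.ORB.C

/-!
# ORB, row CL1: averaging over one needle
-/

open Classical Finset

namespace Pool.ORB

section
variable {E Nd Sg W : Type} [Fintype E] [Fintype W] [Fintype Sg]

/-- the sum over the needles for one record -/
private theorem cl1_rec (h : ONEStmt) (D : Dat E Nd Sg W) (ρ u : FS E Nd) (e : E)
    (V0 : Finset Nd) (he : e ∉ dm ρ) (hV : D.q ^ 2 ≤ V0.card) :
    ∑ w ∈ V0, D.wt (insert (e, w, false) ρ) u ≤ ∑ _w ∈ V0, D.wt ρ u := by
  have h0 : 0 ≤ D.wt ρ u := by
    rcases V0.eq_empty_or_nonempty with hV0 | ⟨w, _⟩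
    · by_cases hn : Nonempty Nd
      · obtain ⟨w⟩ := hn
        exact (h D ρ u (e, w, false) he).2.2.2.1
      · unfold Dat.wt
        split_ifs
        · positivity
        · exact le_refl _
    · exact (h D ρ u (e, w, false) he).2.2.2.1
  by_cases h1 : e ∉ dm u
  · exact le_of_eq (Finset.sum_congr rfl (fun w _ => (h D ρ u (e, w, false) he).1 h1))
  push Not at h1
  by_cases h2 : ∃ w ∈ V0, (e, w, false) ∈ u
  · obtain ⟨w0, hw0, hu0⟩ := h2
    by_cases h3 : Fn u
    · have h4 : ∑ w ∈ V0, D.wt (insert (e, w, false) ρ) u = D.wt (insert (e, w0, false) ρ) u := by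
        refine Finset.sum_eq_single_of_mem w0 hw0 ?_
        intro w hw hne
        refine (h D ρ u (e, w, false) he).2.2.1 h1 ?_
        intro hu
        have h5 := h3 _ hu _ hu0 rfl
        rw [Prod.mk.injEq, Prod.mk.injEq] at h5
        exact hne h5.2.1
      rw [h4, Finset.sum_const, nsmul_eq_mul]
      refine ((h D ρ u (e, w0, false) he).2.2.2.2).trans (mul_le_mul_of_nonneg_right ?_ h0)
      exact_mod_cast hV
    · have h4 : ∀ κ : FS E Nd, D.wt κ u = 0 := by
        intro κ
        unfold Dat.wt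
        rw [if_neg]
        intro h5
        exact h3 (fun f hf g hg hfg =>
          h5 f (Finset.mem_union_right _ hf) g (Finset.mem_union_right _ hg) hfg)
      simp only [h4]
      exact le_refl _
  · push Not at h2
    have h4 : ∑ w ∈ V0, D.wt (insert (e, w, false) ρ) u = 0 :=
      Finset.sum_eq_zero (fun w hw => (h D ρ u (e, w, false) he).2.2.1 h1 (h2 w hw))
    rw [h4]
    exact Finset.sum_nonneg (fun _ _ => h0)

end

/-- **CL1**. -/
theorem cl1 (h : ONEStmt) : CL1Stmt := by
  intro E Nd Sg W _ _ _ D s e V0 he hV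
  have hq : 0 < D.q := by
    have h1 := D.hq
    have h2 := D.hp
    have h3 : 0 < 16 * Hp D.p * (Tp D.p) ^ 2 := by
      have h4 : 0 < Hp D.p := by unfold Hp; omega
      have h5 : 0 < Tp D.p := by unfold Tp; positivity
      positivity
    omega
  have hne : V0.Nonempty := by
    rw [← Finset.card_pos]
    exact lt_of_lt_of_le (pow_pos hq 2) hV
  refine Finset.exists_le_of_sum_le hne ?_
  unfold Dat.Psi
  rw [Finset.sum_comm, Finset.sum_comm (s := V0)]
  refine Finset.sum_le_sum (fun σ _ => ?_)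
  rw [Finset.sum_comm, Finset.sum_comm (s := V0)]
  exact Finset.sum_le_sum (fun l _ => cl1_rec h D s.ρ l.2 e V0 he hV)

end Pool.ORB
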